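import Pool.Agent.TAM.Thick

open Helper77.TA TAM MeasureTheory
open scoped ENNReal

/-- Phase space inequality: weights `p j` on the wave packets of `f` in the directions `ω j`, and a
constant which depends only on the local multiplicity of the weights. -/
theorem Pool.Agent.Results.MP_fe240d_an.LocalMultiplicity.result
    (n : ℕ) (E : Set (EuclideanSpace ℝ (Fin n))) (hE : NullMeasurableSet E)
    (L θ a h b y : ℝ) (hL : 0 < L) (ha : 0 < a) (haθ : a < θ) (hθ : θ ≤ 1) (hh : 0 ≤ h)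
    (hy : y = 2 * L * θ / (θ - a))
    (N : ℕ) (ω : Fin N → EuclideanSpace ℝ (Fin n)) (hω : ∀ j, ‖ω j‖ = 1)
    (hthick : ∀ j, ThickAlong E L θ (ω j)) (R : ℝ) (hR : 0 ≤ R)
    (f : L2 (EuclideanSpace ℝ (Fin n))) (hf : SpectrumIn f (caps R h b ω))
    (p : Fin N → EuclideanSpace ℝ (Fin n) → ℝ≥0∞) (hp : ∀ j, Measurable (p j)) :
    waveMass p f (R + h) y ω ≤ ENNReal.ofReal (Real.exp 1) *
      (multMass p f y ω E ^ a * multMass p f y ω Set.univ ^ (1 - a)) ∧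
    ∀ M q : ℝ, 0 < q → (∀ᵐ v, mult p ω y v ≤ ENNReal.ofReal M) →
      ENNReal.ofReal q * waveMass 1 f (R + h) y ω ≤ waveMass p f (R + h) y ω →
      Controlled E ((M / q * Real.exp (1 + 4 * Real.pi * y *
        (h + b ^ 2 * (1 + h) / 2))) ^ (1 / (2 * a))) f := by
  have hR0 : 0 < 1 + R := by linarith
  have hδ : 0 < θ - a := by linarith
  have hθ0 : 0 < θ := ha.trans haθ
  have hy0 : 0 < y := by rw [hy]; positivity
  have ha1 : a < 1 := haθ.trans_le hθ
  obtain ⟨E', hE', hae, hd⟩ := exists_thick ω hE hL ha haθ hthick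
  rw [← hy] at hd
  have hspec : ∀ᵐ ξ, ((FourierTransform.fourier f : L2 (EuclideanSpace ℝ (Fin n))) :
      EuclideanSpace ℝ (Fin n) → ℂ) ξ ≠ 0 →
      ‖ξ‖ ≤ R + h ∧ ∃ j, (R + h) - (h + b ^ 2 * (1 + h) / 2) ≤ inner ℝ ξ (ω j) := by
    filter_upwards [hf] with ξ hξ h0
    obtain ⟨h1, h2, j, h3⟩ := hξ h0
    refine ⟨h2, j, ?_⟩
    have h4 : ‖(‖ξ‖⁻¹ : ℝ) • ξ - ω j‖ ^ 2 ≤ b ^ 2 / (1 + R) := by
      have h5 : ((1 + R) ^ (-(1 / 2) : ℝ)) ^ 2 = 1 / (1 + R) := by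
        rw [← Real.rpow_natCast, ← Real.rpow_mul hR0.le]
        norm_num
        exact Real.rpow_neg_one (1 + R)
      calc ‖(‖ξ‖⁻¹ : ℝ) • ξ - ω j‖ ^ 2 ≤ (b * (1 + R) ^ (-(1 / 2) : ℝ)) ^ 2 := by
            have := norm_nonneg ((‖ξ‖⁻¹ : ℝ) • ξ - ω j)
            gcongr
        _ = b ^ 2 / (1 + R) := by rw [mul_pow, h5, mul_one_div]
    exact cap_height hR hh (sq_nonneg b) (hω j) h1 h2 h4
  refine ⟨?_, ?_⟩
  · have key := phase_ball ω hω hE' hy0 ha ha1 hd f (hspec.mono fun ξ hξ h0 => (hξ h0).1) hp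
    rw [Measure.restrict_congr_set hae] at key
    rw [waveMass, multMass, multMass, Measure.restrict_univ]
    exact key
  · intro M q hq hM hpq
    have key := local_mult ω hω hE' hy0 ha ha1 hd f hspec hp hq hM
      (by simpa only [waveMass, Pi.one_apply, one_mul] using hpq)
    rw [Measure.restrict_congr_set hae] at key
    exact key
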