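import Pool.Agent.Helper77.TA.Poly

open Helper77.TA

/-- For every `a < θ` the constant in the annulus inequality grows at most like
`(1 + R) ^ ((n - 1) / (4 a))`, uniformly over all sets `E` satisfying the geometric control
condition with parameters `L`, `θ`. -/
theorem Pool.Agent.Results.MP_fe240d_an.PolynomialBound.result
    (n : ℕ) (hn : 1 ≤ n) (L θ a h : ℝ) (hL : 0 < L) (ha : 0 < a) (haθ : a < θ) (hθ : θ ≤ 1)
    (hh : 0 ≤ h) :
    ∃ C : ℝ, ∀ E : Set (EuclideanSpace ℝ (Fin n)), MeasureTheory.NullMeasurableSet E →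
      GCC E L θ → ∀ R : ℝ, 0 ≤ R → ∀ f : L2 (EuclideanSpace ℝ (Fin n)),
        SpectrumIn f {ξ | R ≤ ‖ξ‖ ∧ ‖ξ‖ ≤ R + h} →
          Controlled E (C * (1 + R) ^ (((n : ℝ) - 1) / (4 * a))) f := by
  obtain ⟨m, rfl⟩ : ∃ m, n = m + 1 := ⟨n - 1, by omega⟩
  refine ⟨(((m + 1) * 4 ^ (m + 1)) *
        Real.exp (1 + 8 * Real.pi * L * θ * ((1 + 3 * h) / 2) / (θ - a))) ^ (1 / (2 * a)), ?_⟩
  intro E hE hgcc R hR f hf
  have hfr : Module.finrank ℝ (EuclideanSpace ℝ (Fin (m + 1))) = m + 1 := by simp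
  have key := annulus_poly hfr hL ha haθ hθ hh hE hgcc hR f hf
  have e1 : (((m + 1 : ℕ) : ℝ) - 1) = (m : ℝ) := by push_cast; ring
  rw [e1]
  exact key
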