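import Pool.Agent.Helper77.TA.Neigh3

open Helper77.TA

/-- The inequality holds with a constant independent of `R` when the set `E` is replaced by its
neighbourhood of size `A (1 + R) ^ (-1/2)`, which shrinks as `R` grows. -/
theorem Pool.Agent.Results.MP_fe240d_an.ShrinkingNeighbourhoods.result
    (n : ℕ) (hn : 1 ≤ n) (L θ h : ℝ) (hL : 0 < L) (hθ : 0 < θ) :
    ∃ A C : ℝ, ∀ E : Set (EuclideanSpace ℝ (Fin n)), MeasureTheory.NullMeasurableSet E →
      GCC E L θ → ∀ R : ℝ, 0 ≤ R → ∀ δ : ℝ, A ≤ δ * Real.sqrt (1 + R) →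
      ∀ f : L2 (EuclideanSpace ℝ (Fin n)), SpectrumIn f {ξ | R ≤ ‖ξ‖ ∧ ‖ξ‖ ≤ R + h} →
        Controlled (Metric.thickening δ E) C f := by
  have hdim : 0 < Module.finrank ℝ (EuclideanSpace ℝ (Fin n)) := by
    rw [finrank_euclideanSpace_fin]; omega
  obtain ⟨A, C, _, _, h⟩ := neighbourhood_uniform (V := EuclideanSpace ℝ (Fin n)) (h := h) hdim
    hL hθ
  exact ⟨A, C, h⟩
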