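import Pool.Agent.REPS.Fin

open Helper77.TA

/-- In the plane the constant in the annulus inequality grows more slowly than any power of `R`,
uniformly over all sets `E` satisfying the geometric control condition with parameters `L`, `θ`. -/
theorem Pool.Agent.Results.MP_fe240d_an.SubpolynomialBound.result
    (L θ h ε : ℝ) (hL : 0 < L) (hθ : 0 < θ) (hh : 0 ≤ h) (hε : 0 < ε) :
    ∃ C : ℝ, ∀ E : Set (EuclideanSpace ℝ (Fin 2)), MeasureTheory.NullMeasurableSet E →
      GCC E L θ → ∀ R : ℝ, 0 ≤ R → ∀ f : L2 (EuclideanSpace ℝ (Fin 2)),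
        SpectrumIn f {ξ | R ≤ ‖ξ‖ ∧ ‖ξ‖ ≤ R + h} →
          Controlled E (C * (1 + R) ^ ε) f := by
  by_cases hθ1 : θ ≤ 1
  · exact REPS.main L θ h ε hL hθ hθ1 hh hε
  · refine ⟨0, ?_⟩
    intro E _ hg
    exfalso
    have h1 := hg (REPS.dir 0) (REPS.norm_dir 0) 0
    have h2 : MeasureTheory.volume {t : ℝ | t ∈ Set.Icc 0 L ∧
        (0 : EuclideanSpace ℝ (Fin 2)) + t • REPS.dir 0 ∈ E} ≤ ENNReal.ofReal L := by
      refine (MeasureTheory.measure_mono (t := Set.Icc (0 : ℝ) L) fun t ht => ht.1).trans ?_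
      rw [Real.volume_Icc, sub_zero]
    have h3 := (ENNReal.ofReal_le_ofReal_iff hL.le).mp (h1.trans h2)
    nlinarith
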